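import Pool.Agent.BEW.StmtsF
import Pool.Agent.Helper47_BEL.NEM
import Pool.Agent.Helper92_BEL.MLP

/-!
# Row SLO (squad BEW): the slope operators
-/

set_option autoImplicit false

namespace Pool.Agent.BEW.H28

open Set Filter Topology MeasureTheory
open scoped InnerProductSpace ENNReal NNReal
open Pool.Agent.BEL

theorem slp_eq {g g' : ℝ → ℝ} (hg : ∀ s, HasDerivAt g (g' s) s) (x y : ℝ) :
    slp g g' x y = dslope g y x := by
  unfold slp
  by_cases h : x = y
  · subst h
    rw [if_pos rfl, dslope_same, (hg x).deriv]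
  · rw [if_neg h, dslope_of_ne _ h, slope_def_field]

theorem slp_tendsto {g g' : ℝ → ℝ} (hg : ∀ s, HasDerivAt g (g' s) s) (b : ℝ) :
    Tendsto (fun a => slp g g' a b) (𝓝 b) (𝓝 (g' b)) := by
  have h : ContinuousAt (dslope g b) b := continuousAt_dslope_same.2 (hg b).differentiableAt
  have h2 : Tendsto (dslope g b) (𝓝 b) (𝓝 (dslope g b b)) := h
  rw [dslope_same, (hg b).deriv] at h2
  exact h2.congr fun a => (slp_eq hg a b).symm

theorem lip {g g' : ℝ → ℝ} {K : ℝ≥0} (hg : ∀ s, HasDerivAt g (g' s) s) (h0 : ∀ s, 0 ≤ g' s)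
    (hK : ∀ s, g' s ≤ K) : LipschitzWith K g := by
  refine lipschitzWith_of_nnnorm_deriv_le (fun s => (hg s).differentiableAt) fun s => ?_
  rw [(hg s).deriv, ← NNReal.coe_le_coe, coe_nnnorm, Real.norm_eq_abs, abs_of_nonneg (h0 s)]
  exact hK s

theorem slp_abs {g g' : ℝ → ℝ} {K : ℝ≥0} (hg : ∀ s, HasDerivAt g (g' s) s) (h0 : ∀ s, 0 ≤ g' s)
    (hK : ∀ s, g' s ≤ K) (x y : ℝ) : |slp g g' x y| ≤ K := by
  unfold slp
  by_cases h : x = y
  · rw [if_pos h, abs_of_nonneg (h0 x)]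
    exact hK x
  · rw [if_neg h, abs_div, div_le_iff₀ (abs_pos.2 (sub_ne_zero.2 h))]
    have := (lip hg h0 hK).dist_le_mul x y
    rwa [Real.dist_eq, Real.dist_eq] at this

theorem slp_meas {g g' : ℝ → ℝ} (hg : ∀ s, HasDerivAt g (g' s) s) (hc : Continuous g') :
    Measurable (fun p : ℝ × ℝ => slp g g' p.1 p.2) := by
  have hgc : Continuous g := continuous_iff_continuousAt.2 fun s => (hg s).continuousAt
  unfold slp
  refine Measurable.ite (measurableSet_eq_fun measurable_fst measurable_snd) ?_ ?_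
  · exact hc.measurable.comp measurable_fst
  · exact ((hgc.measurable.comp measurable_fst).sub (hgc.measurable.comp measurable_snd)).div
      (measurable_fst.sub measurable_snd)

theorem ml_tendsto {X : Type} [MeasurableSpace X] {μ : Measure X} [IsFiniteMeasure μ]
    {f : ℕ → X → ℝ} {f0 : X → ℝ} {M : ℝ} (hf : ∀ n, Measurable (f n)) (hM : ∀ n x, |f n x| ≤ M)
    (hf0 : Measurable f0) (hM0 : ∀ x, |f0 x| ≤ M)
    (hl : ∀ᵐ x ∂μ, Tendsto (fun n => f n x) atTop (𝓝 (f0 x))) (y : Lp ℝ 2 μ) :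
    Tendsto (fun n => ml μ (f n) y) atTop (𝓝 (ml μ f0 y)) := by
  have key : Tendsto (fun n => ‖ml μ (f n) y - ml μ f0 y‖ ^ 2) atTop (𝓝 0) := by
    have e : ∀ n, ‖ml μ (f n) y - ml μ f0 y‖ ^ 2 = ∫ x, ((f n x - f0 x) * y x) ^ 2 ∂μ := by
      intro n
      rw [← real_inner_self_eq_norm_sq, L2.inner_def]
      refine integral_congr_ae ?_
      filter_upwards [(H92.mlp X μ (f n) M (hf n) (hM n)).1 y, (H92.mlp X μ f0 M hf0 hM0).1 y,
        Lp.coeFn_sub (ml μ (f n) y) (ml μ f0 y)] with x h1 h2 h3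
      rw [h3, Pi.sub_apply, h1, h2]
      rw [real_inner_self_eq_norm_sq, Real.norm_eq_abs, sq_abs]
      ring
    simp_rw [e]
    have h0 : (0 : ℝ) = ∫ x, (0 : ℝ) ∂μ := by simp
    rw [h0]
    refine tendsto_integral_of_dominated_convergence (fun x => (2 * M) ^ 2 * (y x) ^ 2) ?_ ?_ ?_ ?_
    · intro n
      exact ((((hf n).sub hf0).aestronglyMeasurable).mul (Lp.aestronglyMeasurable y)).pow 2
    · exact (Lp.memLp y).integrable_sq.const_mul _
    · intro n
      refine Eventually.of_forall fun x => ?_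
      rw [Real.norm_eq_abs, abs_of_nonneg (sq_nonneg _), mul_pow]
      refine mul_le_mul_of_nonneg_right ?_ (sq_nonneg _)
      refine sq_le_sq' ?_ ?_
      · have h1 := (abs_le.1 (hM n x)).1
        have h2 := (abs_le.1 (hM0 x)).2
        linarith
      · have h1 := (abs_le.1 (hM n x)).2
        have h2 := (abs_le.1 (hM0 x)).1
        linarith
    · filter_upwards [hl] with x hx
      have h1 : Tendsto (fun n => ((f n x - f0 x) * y x) ^ 2) atTop
          (𝓝 (((f0 x - f0 x) * y x) ^ 2)) :=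
        ((hx.sub tendsto_const_nhds).mul tendsto_const_nhds).pow 2
      simpa using h1
  rw [tendsto_iff_norm_sub_tendsto_zero]
  have h2 := (Real.continuous_sqrt.tendsto 0).comp key
  rw [Real.sqrt_zero] at h2
  refine h2.congr fun n => ?_
  simp only [Function.comp_apply]
  exact Real.sqrt_sq (norm_nonneg _)

theorem ml_tendsto' {X : Type} [MeasurableSpace X] {μ : Measure X} [IsFiniteMeasure μ] {ι : Type}
    {l : Filter ι} [l.IsCountablyGenerated] {v : ι → Lp ℝ 2 μ} {v0 : Lp ℝ 2 μ}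
    (hv : Tendsto v l (𝓝 v0)) {Φ : ℝ → ℝ → ℝ} {Φ0 : ℝ → ℝ} {M : ℝ}
    (hΦ : Measurable (fun p : ℝ × ℝ => Φ p.1 p.2)) (hΦ0 : Measurable Φ0)
    (hM : ∀ a b, |Φ a b| ≤ M) (hM0 : ∀ a, |Φ0 a| ≤ M)
    (hl : ∀ b, Tendsto (fun a => Φ a b) (𝓝 b) (𝓝 (Φ0 b))) (y : Lp ℝ 2 μ) :
    Tendsto (fun i => ml μ (fun x => Φ (v i x) (v0 x)) y) l
      (𝓝 (ml μ (fun x => Φ0 (v0 x)) y)) := by
  refine tendsto_of_seq_tendsto fun u hu => ?_
  refine tendsto_of_subseq_tendsto fun ns hns => ?_
  have h1 : Tendsto (fun n => v (u (ns n))) atTop (𝓝 v0) := hv.comp (hu.comp hns)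
  have h2 := tendstoInMeasure_of_tendsto_Lp h1
  obtain ⟨ms, hms, hae⟩ := h2.exists_seq_tendsto_ae
  refine ⟨ms, ?_⟩
  refine ml_tendsto (M := M) (fun n => ?_) (fun n x => hM _ _) ?_ (fun x => hM0 _) ?_ y
  · exact hΦ.comp ((Lp.stronglyMeasurable _).measurable.prodMk
      (Lp.stronglyMeasurable _).measurable)
  · exact hΦ0.comp (Lp.stronglyMeasurable _).measurable
  · filter_upwards [hae] with x hx
    exact (hl (v0 x)).comp hx

theorem slo : SloStmt := by
  intro X _ μ _ g g' K v hg hc h0 hK g0 hv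
  have hL := lip hg h0 hK
  have hms : ∀ t s : ℝ, Measurable (fun x => slp g g' (v t x) (v s x)) := fun t s =>
    (slp_meas hg hc).comp ((Lp.stronglyMeasurable (v t)).measurable.prodMk
      (Lp.stronglyMeasurable (v s)).measurable)
  have hmg : ∀ t : ℝ, Measurable (fun x => g' (v t x)) := fun t =>
    hc.measurable.comp (Lp.stronglyMeasurable (v t)).measurable
  have hgK : ∀ s, |g' s| ≤ K := fun s => by
    rw [abs_of_nonneg (h0 s)]
    exact hK s
  refine ⟨fun t h => ?_, fun t h y => ?_, fun t y => ?_, fun y hy => ?_⟩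
  · refine Lp.ext ?_
    filter_upwards [(H47.nem X μ g K hL g0).1 (v (t + h)), (H47.nem X μ g K hL g0).1 (v t),
      Lp.coeFn_sub (nem μ g (v (t + h))) (nem μ g (v t)), Lp.coeFn_sub (v (t + h)) (v t),
      (H92.mlp X μ (fun x => slp g g' (v (t + h) x) (v t x)) K (hms (t + h) t)
        (fun x => slp_abs hg h0 hK _ _)).1 (v (t + h) - v t)] with x h1 h2 h3 h4 h5
    rw [h3, h5, h4, Pi.sub_apply, Pi.sub_apply, h1, h2]
    unfold slp
    by_cases e : v (t + h) x = v t x
    · rw [if_pos e, e, sub_self, sub_self, mul_zero]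
    · rw [if_neg e, div_mul_cancel₀ _ (sub_ne_zero.2 e)]
  · exact (H92.mlp X μ (fun x => slp g g' (v (t + h) x) (v t x)) K (hms (t + h) t)
      (fun x => slp_abs hg h0 hK _ _)).2.1 y
  · refine ml_tendsto' (M := (K : ℝ)) (v := fun h => v (t + h)) ?_ (slp_meas hg hc) hc.measurable
      (slp_abs hg h0 hK) hgK (slp_tendsto hg) y
    have h1 : Tendsto (fun h : ℝ => v (t + h)) (𝓝 0) (𝓝 (v (t + 0))) :=
      (hv.comp (continuous_const.add continuous_id)).tendsto 0
    rwa [add_zero] at h1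
  · rw [continuous_iff_continuousAt]
    intro t
    have a1 : Tendsto (fun s => ml μ (fun x => g' (v s x)) (y t)) (𝓝 t)
        (𝓝 (ml μ (fun x => g' (v t x)) (y t))) :=
      ml_tendsto' (M := (K : ℝ)) (v := v) (Φ := fun a _ => g' a) (hv.tendsto t)
        (hc.measurable.comp measurable_fst) hc.measurable (fun a _ => hgK a) hgK
        (fun b => hc.tendsto b) (y t)
    have a2 : Tendsto (fun s => ml μ (fun x => g' (v s x)) (y s - y t)) (𝓝 t) (𝓝 0) := by
      rw [tendsto_zero_iff_norm_tendsto_zero]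
      have h1 : Tendsto (fun s => (K : ℝ) * ‖y s - y t‖) (𝓝 t) (𝓝 ((K : ℝ) * ‖y t - y t‖)) :=
        (((hy.tendsto t).sub tendsto_const_nhds).norm).const_mul _
      rw [sub_self, norm_zero, mul_zero] at h1
      refine squeeze_zero (fun s => norm_nonneg _) (fun s => ?_) h1
      exact (H92.mlp X μ (fun x => g' (v s x)) K (hmg s) (fun x => hgK _)).2.1 _
    have a3 := a2.add a1
    rw [zero_add] at a3
    refine a3.congr fun s => ?_
    rw [← (H92.mlp X μ (fun x => g' (v s x)) K (hmg s) (fun x => hgK _)).2.2.1, sub_add_cancel]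

end Pool.Agent.BEW.H28
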